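import Pool.Agent.Results.MP_fd8838_nt.BelowEntropyTwoThree
import Pool.Agent.X174.WinN

/-!
# Möller's exceptional sets for `d = 2`, `m = 3` and ALL offsets up to a power of `n` at once: windows

There is `η` below `H = 0.94995...`, the binary entropy of `log 2 / log 3` in bits, such that for `0 ≤ κ ≤ 1`, every
sequence `v ≥ 1` of exponent of convergence at most `τ` (for `v_i = i ^ a` this is `1 / a`, for `v_i = b ^ i` it is `0`)
and `θ < 1`, outside a set of `α > 0` of Hausdorff dimension at most `(η + (2 - η) κ + τ) / (1 - θ)`, for all but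
finitely many `i` NO integer `n ≥ 1` with `|n - α v_i| ≤ v_i ^ θ` belongs to any of the exceptional sets `E(2, 3, {r})`,
`r` odd, `|r| ≤ n ^ κ`.

The number of exceptions is from the starting result `BelowEntropyTwoThree`, the passage to windows from the starting
module `Pool.Agent.Y854.GM.Win`.
-/

set_option autoImplicit false

namespace Pool.Agent.Results.MP_fd8838_nt.AllOffsetsInWindows

open Finset
open Pool.Agent.X174 (winN cumN)

/-- the exponent of convergence of the sequence `v` is at most `τ` -/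
def ExpLe (v : ℕ → ℝ) (τ : ℝ) : Prop := ∀ t : ℝ, τ < t → Summable (fun n : ℕ => (v n) ^ (-t))

/-- The generalised Hasse-Syracuse map `H(x) = (m x - r_j) / d ^ a(x)`, where `j` is the residue of
`x` modulo `d` and `d ^ a(x)` is the largest power of `d` dividing `m x - r_j`. -/
def H (d m : ℕ) (r : ℤ → ℤ) (x : ℤ) : ℤ :=
  (m * x - r (x % d)) / (d : ℤ) ^ padicValInt d (m * x - r (x % d))

/-- The exceptional set `E(d, m, R)`: the positive integers `n` not divisible by `d` such that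
`H^k(n) ≥ n` for all `k ≥ 1` for which `H^k(n)` is defined (the orbit stops at `y` if
`m y ≤ r_j`). -/
def E (d m : ℕ) (r : ℤ → ℤ) : Set ℤ :=
  {n | 0 < n ∧ ¬ (d : ℤ) ∣ n ∧ ∀ k, 1 ≤ k →
    (∀ i < k, r ((H d m r)^[i] n % d) < m * (H d m r)^[i] n) → n ≤ (H d m r)^[k] n}

/-- the binary entropy of `log 2 / log 3` in bits, `0.94995...` -/
noncomputable def entropy : ℝ := Real.binEntropy (Real.log 2 / Real.log 3) / Real.log 2

/-- **Theorem.** There is `η` with `0 < η < H = 0.94995...` such that for all `0 ≤ κ ≤ 1`, all sequences `v ≥ 1` of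
exponent of convergence at most `τ ≥ 0` and all `θ < 1` there is a set `N` of Hausdorff dimension at most
`(η + (2 - η) κ + τ) / (1 - θ)` such that for each `α > 0` outside `N`, for all but finitely many `i`, no integer
`n ≥ 1` with `|n - α v_i| ≤ v_i ^ θ` belongs to an exceptional set `E(2, 3, {r})` with `r` odd and `|r| ≤ n ^ κ`. The
sequences `v_i = (i + 1) ^ a` and `v_i = b ^ i` have exponent of convergence at most `1 / a` and `0`. -/
theorem result :
    (∃ η : ℝ, 0 < η ∧ η < entropy ∧ ∀ κ : ℝ, 0 ≤ κ → κ ≤ 1 →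
      ∀ (v : ℕ → ℝ) (τ θ : ℝ), (∀ i, 1 ≤ v i) → 0 ≤ τ → ExpLe v τ → θ < 1 →
      ∃ N : Set ℝ, dimH N ≤ ENNReal.ofReal ((η + (2 - η) * κ + τ) / (1 - θ)) ∧
        ∀ α : ℝ, 0 < α → α ∉ N → ∃ i₀ : ℕ, ∀ i : ℕ, i₀ ≤ i →
          ∀ n : ℕ, 1 ≤ n → |(n : ℝ) - α * v i| ≤ (v i) ^ θ →
            ∀ r : ℤ, Odd r → |(r : ℝ)| ≤ (n : ℝ) ^ κ → (n : ℤ) ∉ E 2 3 (fun _ => r)) ∧
    (∀ a : ℝ, 0 < a → ExpLe (fun n : ℕ => ((n : ℝ) + 1) ^ a) (1 / a)) ∧
    (∀ b : ℝ, 1 < b → ExpLe (fun n : ℕ => b ^ n) 0) := by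
  classical
  refine ⟨?_, fun κ hκ => Pool.Agent.Y854.GM.expLe_pow κ hκ, fun b hb => Pool.Agent.Y854.GM.expLe_geom b hb⟩
  obtain ⟨η1, A, hη1, hA, h⟩ := BelowEntropyTwoThree.result
  have hent : 0 < entropy := by
    unfold entropy
    have h2 : 0 < Real.log 2 := Real.log_pos (by norm_num)
    have h3 : Real.log 2 < Real.log 3 := Real.log_lt_log (by norm_num) (by norm_num)
    apply div_pos _ h2
    apply Real.binEntropy_pos
    · exact div_pos h2 (h2.trans h3)
    · rw [div_lt_one (h2.trans h3)]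
      exact h3
  have hent1 : entropy ≤ 1 := by
    unfold entropy
    rw [div_le_one (Real.log_pos (by norm_num))]
    exact Real.binEntropy_le_log_two
  set η : ℝ := max η1 (entropy / 2) with hη
  have hηa : η1 ≤ η := le_max_left _ _
  have hη0 : 0 < η := lt_of_lt_of_le (by positivity) (le_max_right _ _)
  have hηe : η < entropy := max_lt hη1 (by linarith)
  have hη1' : η < 1 := by linarith
  refine ⟨η, hη0, hηe, fun κ hκ0 hκ1 v τ θ hv hτ hE hθ => ?_⟩
  set s : ℝ := η + (2 - η) * κ with hs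
  have hs0 : 0 < s := by
    have : 0 ≤ (2 - η) * κ := mul_nonneg (by linarith) hκ0
    linarith
  set P : ℕ → Prop := fun n => ∃ r : ℤ, Odd r ∧ |(r : ℝ)| ≤ (n : ℝ) ^ κ ∧ (n : ℤ) ∈ E 2 3 (fun _ => r) with hP
  obtain ⟨B, hB, hcount⟩ := cumN P s (3 * A * 2 ^ s) hs0 (by positivity) 1 (fun K hK => by
    have hK1 : (1 : ℝ) ≤ K := by exact_mod_cast hK
    have hKp : (0 : ℝ) < K := by linarith
    set X : ℝ := 2 * K with hX
    have hX1 : 1 ≤ X := by rw [hX]; linarith
    have hXp : 0 < X := by linarith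
    set R : ℝ := X ^ κ with hR
    have hR1 : 1 ≤ R := Real.one_le_rpow hX1 hκ0
    have hRp : 0 < R := by linarith
    have hRX : R ≤ X := by
      calc R ≤ X ^ (1 : ℝ) := Real.rpow_le_rpow_of_exponent_le hX1 hκ1
        _ = X := Real.rpow_one X
    have hfinr : ∀ r : ℤ, {n : ℤ | n ∈ E 2 3 (fun _ => r) ∧ (n : ℝ) ≤ X}.Finite := by
      intro r
      apply (Set.finite_Icc (0 : ℤ) ⌊X⌋).subset
      rintro n ⟨hn, hnX⟩
      exact ⟨hn.1.le, Int.le_floor.2 hnX⟩
    set J : Finset ℤ := (Icc (-⌊R⌋) ⌊R⌋).filter (fun r => Odd r) with hJ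
    set F : Finset ℤ := J.biUnion fun r => (hfinr r).toFinset with hF
    have hsub : {n : ℕ | K < n ∧ n ≤ 2 * K ∧ P n} ⊆ (fun n : ℕ => (n : ℤ)) ⁻¹' (F : Set ℤ) := by
      rintro n ⟨h1, h2, r, h3, h4, h5⟩
      have hnX : (n : ℝ) ≤ X := by rw [hX]; exact_mod_cast h2
      rw [Set.mem_preimage, Finset.mem_coe, hF, mem_biUnion]
      refine ⟨r, ?_, ?_⟩
      · rw [hJ, mem_filter, mem_Icc]
        have h6 : |(r : ℝ)| ≤ R := h4.trans (Real.rpow_le_rpow (Nat.cast_nonneg _) hnX hκ0)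
        have h7 := abs_le.1 h6
        refine ⟨⟨?_, Int.le_floor.2 h7.2⟩, h3⟩
        have : -r ≤ ⌊R⌋ := Int.le_floor.2 (by push_cast; linarith [h7.1])
        linarith
      · rw [Set.Finite.mem_toFinset]
        exact ⟨h5, by exact_mod_cast hnX⟩
    have hinj : Function.Injective (fun n : ℕ => (n : ℤ)) := fun a b h => by simpa using h
    have hcard1 : {n : ℕ | K < n ∧ n ≤ 2 * K ∧ P n}.ncard ≤ F.card := by
      rw [← Set.ncard_image_of_injective _ hinj, ← Set.ncard_coe_finset]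
      apply Set.ncard_le_ncard _ (Finset.finite_toSet _)
      rintro _ ⟨n, hn, rfl⟩
      exact hsub hn
    have hJc : (J.card : ℝ) ≤ 3 * R := by
      have h1 : J.card ≤ (Icc (-⌊R⌋) ⌊R⌋).card := card_filter_le _ _
      rw [Int.card_Icc] at h1
      have h2 : 0 ≤ ⌊R⌋ := Int.floor_nonneg.2 hRp.le
      have h3 : ((⌊R⌋ + 1 - -⌊R⌋).toNat : ℤ) = 2 * ⌊R⌋ + 1 := by omega
      have h4 : (J.card : ℤ) ≤ 2 * ⌊R⌋ + 1 := by
        rw [← h3]
        exact_mod_cast h1
      have h5 : (J.card : ℝ) ≤ 2 * (⌊R⌋ : ℝ) + 1 := by exact_mod_cast h4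
      have h6 := Int.floor_le R
      linarith
    have hFc : ∀ r ∈ J, (((hfinr r).toFinset).card : ℝ) ≤ A * (R ^ (1 - η) * X ^ η) := by
      intro r hr
      rw [hJ, mem_filter, mem_Icc] at hr
      obtain ⟨⟨hr1, hr2⟩, hr3⟩ := hr
      rw [← Set.ncard_eq_toFinset_card _ (hfinr r)]
      have h1 := h (fun _ => r) (fun j hj1 hj2 => by
        have hj : j = 1 := by omega
        rw [hj]
        obtain ⟨t, ht⟩ := hr3
        omega) X hX1
      have hrne : r ≠ 0 := by
        rintro rfl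
        simp at hr3
      have hr1' : (1 : ℝ) ≤ |(r : ℝ)| := by exact_mod_cast Int.one_le_abs hrne
      have hrp : (0 : ℝ) < |(r : ℝ)| := by linarith
      have hrR : |(r : ℝ)| ≤ R := by
        rw [abs_le]
        have h2 := Int.floor_le R
        have h3 : (r : ℝ) ≤ (⌊R⌋ : ℝ) := by exact_mod_cast hr2
        have h4 : (-⌊R⌋ : ℝ) ≤ r := by exact_mod_cast hr1
        constructor <;> linarith
      refine h1.trans ?_
      rw [mul_assoc]
      apply mul_le_mul_of_nonneg_left _ hA.le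
      have e1 : ∀ t : ℝ, |(r : ℝ)| ^ (1 - t) * X ^ t = |(r : ℝ)| * (X / |(r : ℝ)|) ^ t := by
        intro t
        rw [Real.div_rpow hXp.le hrp.le, Real.rpow_sub hrp, Real.rpow_one]
        ring
      calc |(r : ℝ)| ^ (1 - η1) * X ^ η1 = |(r : ℝ)| * (X / |(r : ℝ)|) ^ η1 := e1 η1
        _ ≤ |(r : ℝ)| * (X / |(r : ℝ)|) ^ η := by
            apply mul_le_mul_of_nonneg_left _ hrp.le
            apply Real.rpow_le_rpow_of_exponent_le _ hηa
            rw [le_div_iff₀ hrp]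
            linarith
        _ = |(r : ℝ)| ^ (1 - η) * X ^ η := (e1 η).symm
        _ ≤ R ^ (1 - η) * X ^ η := by
            apply mul_le_mul_of_nonneg_right _ (by positivity)
            exact Real.rpow_le_rpow hrp.le hrR (by linarith)
    have hF2 : (F.card : ℝ) ≤ (3 * R) * (A * (R ^ (1 - η) * X ^ η)) := by
      have h1 : F.card ≤ ∑ r ∈ J, ((hfinr r).toFinset).card := card_biUnion_le
      calc (F.card : ℝ) ≤ ∑ r ∈ J, (((hfinr r).toFinset).card : ℝ) := by exact_mod_cast h1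
        _ ≤ ∑ r ∈ J, A * (R ^ (1 - η) * X ^ η) := sum_le_sum hFc
        _ = (J.card : ℝ) * (A * (R ^ (1 - η) * X ^ η)) := by rw [sum_const, nsmul_eq_mul]
        _ ≤ _ := mul_le_mul_of_nonneg_right hJc (by positivity)
    calc ({n : ℕ | K < n ∧ n ≤ 2 * K ∧ P n}.ncard : ℝ) ≤ (F.card : ℝ) := by exact_mod_cast hcard1
      _ ≤ (3 * R) * (A * (R ^ (1 - η) * X ^ η)) := hF2
      _ = 3 * A * (R ^ (2 - η) * X ^ η) := by
          have : R ^ (2 - η) = R * R ^ (1 - η) := by
            have h1 : (2 : ℝ) - η = 1 + (1 - η) := by ring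
            rw [h1, Real.rpow_add hRp, Real.rpow_one]
          rw [this]
          ring
      _ = 3 * A * X ^ s := by
          rw [hR, ← Real.rpow_mul hXp.le, ← Real.rpow_add hXp, hs]
          congr 2
          ring
      _ = 3 * A * 2 ^ s * (K : ℝ) ^ s := by
          rw [hX, Real.mul_rpow (by norm_num) hKp.le]
          ring)
  obtain ⟨N, h1, h2⟩ := winN P hv hτ hE hs0.le hθ B hB hcount
  refine ⟨N, h1, fun α hα hαE => ?_⟩
  obtain ⟨i₀, hi⟩ := h2 α hα hαE
  exact ⟨i₀, fun i hi1 n hn hw r hr1 hr2 hr3 => hi i hi1 n hn hw ⟨r, hr1, hr2, hr3⟩⟩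

end Pool.Agent.Results.MP_fd8838_nt.AllOffsetsInWindows
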