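import Mathlib
import Pool.Agent.X42.Lens2

set_option autoImplicit false

/-!
# The lengths of the cycles of Möller's maps

For Möller's maps with `m ≤ d ^ (d / (d - 1))` every interval of `H` consecutive integers contains at
most `A H exp (-c √(log H))` lengths of cycles, uniformly in the position of the interval; `c > 0`
depends on `d` and `m` only. This holds for the lengths of the cycles of the map `T` on the integers
and for the numbers of their elements that are not divisible by `d`, which are the lengths of the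
cycles of the accelerated map `H`.

Proof. For a cycle with `p` elements, `o` of them not divisible by `d`, whose elements are of absolute
value at least `N`, `|o log m - p log d| ≤ C N ^ (η - 1)` (starting library). The lower bound
`exp (-C (1 + log b) ^ 2)` for `|b log m - a log d|` (two logarithms, starting library) gives
denominators of approximations of `log m / log d` in every range `[exp √(log H / C), H]`.
-/

namespace Pool.Agent.Results.MP_fd8838_nt.CycleLengthsInIntervals

/-- the map `T n = n / d` if `d` divides `n`, `T n = (m n - r j) / d` if `n ≡ j` modulo `d`,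
`1 ≤ j ≤ d - 1`, on all integers -/
def T (d m : ℕ) (r : ℕ → ℤ) (n : ℤ) : ℤ :=
  if (d : ℤ) ∣ n then n / d else (m * n - r (n % d).toNat) / d

/-- `o` and `p` belong to one cycle: a cycle of `T` on the integers has exactly `p ≥ 1` elements and
exactly `o` of them are not divisible by `d` -/
def Cycle (d m : ℕ) (r : ℕ → ℤ) (o p : ℕ) : Prop :=
  0 < p ∧ ∃ x : ℤ, Function.minimalPeriod (T d m r) x = p ∧
    ((Finset.range p).filter fun j => ¬ (d : ℤ) ∣ (T d m r)^[j] x).card = o

/-- Let `d ≥ 2`, `m ≥ 1` be coprime, `m ≤ d ^ (d / (d - 1))`. There is `c > 0` such that for every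
admissible `r` there is `A` such that every interval `[a, a + H)`, `H ≥ 1`, contains at most
`A H exp (-c √(log H))` lengths `p` of cycles of `T` on the integers, and at most as many numbers `o`
of elements of a cycle which are not divisible by `d` (the lengths of the cycles of `H`). -/
theorem result (d m : ℕ) (hd : 2 ≤ d) (hm : 1 ≤ m) (hc : Nat.Coprime m d)
    (hle : (m : ℝ) ≤ (d : ℝ) ^ ((d : ℝ) / ((d : ℝ) - 1))) :
    ∃ c : ℝ, 0 < c ∧ ∀ r : ℕ → ℤ, (∀ j : ℕ, 1 ≤ j → j < d → r j ≡ m * j [ZMOD d]) →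
      ∃ A : ℝ, 0 < A ∧ ∀ a H : ℕ, 1 ≤ H →
        (Set.ncard {p : ℕ | a ≤ p ∧ p < a + H ∧ ∃ o, Cycle d m r o p} : ℝ) ≤
          A * (H * Real.exp (-(c * √(Real.log H)))) ∧
        (Set.ncard {o : ℕ | a ≤ o ∧ o < a + H ∧ ∃ p, Cycle d m r o p} : ℝ) ≤
          A * (H * Real.exp (-(c * √(Real.log H)))) := by
  have hd0 : (0 : ℝ) < d := by exact_mod_cast (by omega : 0 < d)
  have hd1 : (0 : ℝ) < (d : ℝ) - 1 := by
    have : (2 : ℝ) ≤ d := by exact_mod_cast hd
    linarith
  have hle' : m ^ (d - 1) ≤ d ^ d := by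
    have h1 : (m : ℝ) ^ (d - 1) ≤ ((d : ℝ) ^ ((d : ℝ) / ((d : ℝ) - 1))) ^ (d - 1) :=
      pow_le_pow_left₀ (Nat.cast_nonneg m) hle _
    rw [← Real.rpow_natCast ((d : ℝ) ^ ((d : ℝ) / ((d : ℝ) - 1))), ← Real.rpow_mul hd0.le,
      Nat.cast_sub (by omega), Nat.cast_one, div_mul_cancel₀ _ hd1.ne', Real.rpow_natCast] at h1
    exact_mod_cast h1
  obtain ⟨c, hc0, h⟩ := Pool.Agent.X42.Lens.lengths hd hm hc hle'
  refine ⟨c, hc0, fun r hr => ?_⟩
  obtain ⟨A, hA, h⟩ := h r (fun j h1 h2 => (Int.modEq_iff_dvd.1 (hr j h1 h2)))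
  refine ⟨A, hA, fun a H hH => ⟨?_, ?_⟩⟩
  · have hfin : {p : ℕ | a ≤ p ∧ p < a + H ∧ ∃ o, Cycle d m r o p}.Finite :=
      (Set.finite_Ico a (a + H)).subset fun p hp => ⟨hp.1, hp.2.1⟩
    rw [Set.ncard_eq_toFinset_card _ hfin]
    apply h a H hH
    left
    intro p hp
    rw [Set.Finite.mem_toFinset] at hp
    obtain ⟨h1, h2, o, h3, x, h4, -⟩ := hp
    exact ⟨h1, h2, h3, x, h4⟩
  · have hfin : {o : ℕ | a ≤ o ∧ o < a + H ∧ ∃ p, Cycle d m r o p}.Finite :=
      (Set.finite_Ico a (a + H)).subset fun p hp => ⟨hp.1, hp.2.1⟩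
    rw [Set.ncard_eq_toFinset_card _ hfin]
    apply h a H hH
    right
    intro o ho
    rw [Set.Finite.mem_toFinset] at ho
    obtain ⟨h1, h2, p, h3, x, h4, h5⟩ := ho
    exact ⟨h1, h2, x, p, h3, h4, h5⟩

end Pool.Agent.Results.MP_fd8838_nt.CycleLengthsInIntervals
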