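import Mathlib
import Pool.Agent.X61.RT.Rare

/-!
# The radicals of the terms of the orbits of generalized Hasse-Syracuse maps

`d ≥ 2`, `m ≥ 1` coprime, `r` an admissible choice of residues, `T (x) = x / d` or
`(m x - r_j) / d` (the points of the `T`-orbit of `x` not divisible by `d` are the points of the
`H`-orbit). If the first `N` terms of an orbit are different (for instance those of an unbounded
orbit, or of a cycle of length at least `N`), then all terms not divisible by `d`, except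
`O (N / log N)` of them, have a radical larger than `N ^ (1 - ε)`. The constant depends on `d`, `m`,
`r`, `ε` only.
-/

set_option autoImplicit false

namespace Pool.Agent.Results.MP_fd8838_nt.RadicalsOfTerms

open Finset

/-- The map `T` of Heppner on the integers: `x / d` if `d` divides `x`, otherwise
`(m x - r_j) / d` with `j` the residue of `x`. -/
def T (d m : ℕ) (r : ℤ → ℤ) (x : ℤ) : ℤ :=
  if (d : ℤ) ∣ x then x / d else ((m : ℤ) * x - r (x % (d : ℤ))) / d

/-- The radical: the product of the primes dividing `n`. -/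
def radical (n : ℤ) : ℕ := ∏ p ∈ n.natAbs.primeFactors, p

/-- the number of multiplications by `m` -/
def mu (d m : ℕ) (r : ℤ → ℤ) (x : ℤ) : ℕ → ℕ
  | 0 => 0
  | n + 1 => mu d m r x n + if (d : ℤ) ∣ (T d m r)^[n] x then 0 else 1

/-- the constant term -/
def cc (d m : ℕ) (r : ℤ → ℤ) (x : ℤ) : ℕ → ℤ
  | 0 => 0
  | n + 1 => if (d : ℤ) ∣ (T d m r)^[n] x then cc d m r x n
      else (m : ℤ) * cc d m r x n + (d : ℤ) ^ n * r ((T d m r)^[n] x % (d : ℤ))

section

variable {d m : ℕ} (hd : 2 ≤ d) (hm : 1 ≤ m) (hmd : Nat.Coprime m d) {r : ℤ → ℤ}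
  (hr : ∀ j : ℤ, 0 < j → j < (d : ℤ) → r j ≡ (m : ℤ) * j [ZMOD (d : ℤ)])

include hd in
lemma emod_pos {x : ℤ} (hx : ¬ (d : ℤ) ∣ x) : 0 < x % (d : ℤ) ∧ x % (d : ℤ) < d := by
  have h0 : (0 : ℤ) < d := by exact_mod_cast (by omega : 0 < d)
  have h1 := Int.emod_nonneg x h0.ne'
  have h2 := Int.emod_lt_of_pos x h0
  refine ⟨lt_of_le_of_ne h1 ?_, h2⟩
  intro h
  exact hx (Int.dvd_of_emod_eq_zero h.symm)

include hd hr in
lemma r_mod {x : ℤ} (hx : ¬ (d : ℤ) ∣ x) : (d : ℤ) ∣ (m : ℤ) * x - r (x % (d : ℤ)) := by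
  obtain ⟨h1, h2⟩ := emod_pos hd hx
  have h3 := hr _ h1 h2
  have h4 : (m : ℤ) * (x % (d : ℤ)) ≡ (m : ℤ) * x [ZMOD (d : ℤ)] :=
    (Int.mod_modEq x d).mul_left m
  exact Int.ModEq.dvd (h3.trans h4)

include hd in
lemma T_dvd {x : ℤ} (hx : (d : ℤ) ∣ x) : (d : ℤ) * T d m r x = x := by
  unfold T
  rw [if_pos hx]
  exact Int.mul_ediv_cancel' hx

include hd hr in
lemma T_ndvd {x : ℤ} (hx : ¬ (d : ℤ) ∣ x) : (d : ℤ) * T d m r x = (m : ℤ) * x - r (x % (d : ℤ)) := by
  unfold T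
  rw [if_neg hx]
  exact Int.mul_ediv_cancel' (r_mod hd hr hx)

include hd hr in
lemma affine (x : ℤ) (n : ℕ) :
    (d : ℤ) ^ n * (T d m r)^[n] x = (m : ℤ) ^ mu d m r x n * x - cc d m r x n := by
  induction n with
  | zero => simp [mu, cc]
  | succ n ih =>
    rw [Function.iterate_succ_apply', pow_succ]
    by_cases h : (d : ℤ) ∣ (T d m r)^[n] x
    · simp only [mu, cc, if_pos h, add_zero]
      rw [mul_assoc, T_dvd hd h, ih]
    · simp only [mu, cc, if_neg h]
      rw [mul_assoc, T_ndvd hd hr h, pow_succ]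
      have : (d : ℤ) ^ n * ((m : ℤ) * (T d m r)^[n] x - r ((T d m r)^[n] x % (d : ℤ))) =
        m * ((d : ℤ) ^ n * (T d m r)^[n] x) - (d : ℤ) ^ n * r ((T d m r)^[n] x % (d : ℤ)) := by ring
      rw [this, ih]
      ring

include hd hmd hr in
lemma cc_ndvd {x : ℤ} (hx : ¬ (d : ℤ) ∣ x) (n : ℕ) : ¬ (d : ℤ) ∣ cc d m r x (n + 1) := by
  have hcop : IsCoprime (d : ℤ) (m : ℤ) := (Nat.isCoprime_iff_coprime.2 hmd).symm
  induction n with
  | zero =>
    have h0 : ¬ (d : ℤ) ∣ (T d m r)^[0] x := hx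
    simp only [cc, if_neg h0, mul_zero, pow_zero, one_mul, zero_add]
    intro h
    have h1 := r_mod hd hr h0
    have h2 : (d : ℤ) ∣ (m : ℤ) * (T d m r)^[0] x := by
      have := h1.add h
      rwa [sub_add_cancel] at this
    exact h0 (hcop.dvd_of_dvd_mul_left h2)
  | succ n ih =>
    by_cases h : (d : ℤ) ∣ (T d m r)^[n + 1] x
    · rw [cc, if_pos h]
      exact ih
    · rw [cc, if_neg h]
      intro h1
      have h2 : (d : ℤ) ∣ (d : ℤ) ^ (n + 1) * r ((T d m r)^[n + 1] x % (d : ℤ)) :=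
        Dvd.dvd.mul_right (dvd_pow_self _ (Nat.succ_ne_zero n)) _
      have h3 : (d : ℤ) ∣ (m : ℤ) * cc d m r x (n + 1) := (Int.dvd_iff_dvd_of_dvd_add h1).2 h2
      exact ih (hcop.dvd_of_dvd_mul_left h3)

/-- the bound for the residues -/
def R0 (d : ℕ) (r : ℤ → ℤ) : ℕ := ∑ j ∈ range d, (r j).natAbs

include hd in
lemma r_le {x : ℤ} (hx : ¬ (d : ℤ) ∣ x) : |r (x % (d : ℤ))| ≤ R0 d r := by
  obtain ⟨h1, h2⟩ := emod_pos hd hx
  obtain ⟨j, hj⟩ := Int.eq_ofNat_of_zero_le h1.le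
  have hjd : j < d := by
    rw [hj] at h2
    exact_mod_cast h2
  rw [hj, Int.abs_eq_natAbs]
  unfold R0
  exact_mod_cast Finset.single_le_sum (f := fun j : ℕ => (r j).natAbs) (fun _ _ => Nat.zero_le _)
    (Finset.mem_range.2 hjd)

include hd in
lemma cc_le (x : ℤ) (n : ℕ) : |cc d m r x n| ≤ ((m + d + R0 d r : ℕ) : ℤ) ^ n := by
  set L : ℤ := ((m + d + R0 d r : ℕ) : ℤ) with hL
  have hLd : (d : ℤ) ≤ L := by rw [hL]; exact_mod_cast (by omega)
  have hL1 : 1 ≤ L := by
    have : (2 : ℤ) ≤ d := by exact_mod_cast hd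
    linarith
  induction n with
  | zero => simp [cc]
  | succ n ih =>
    by_cases h : (d : ℤ) ∣ (T d m r)^[n] x
    · rw [cc, if_pos h, pow_succ]
      have : 0 ≤ L ^ n := by positivity
      nlinarith
    · rw [cc, if_neg h, pow_succ]
      have h1 := r_le (r := r) hd h
      have h2 : (d : ℤ) ^ n ≤ L ^ n := pow_le_pow_left₀ (by positivity) hLd n
      have h3 : (0 : ℤ) ≤ (d : ℤ) ^ n := by positivity
      calc |(m : ℤ) * cc d m r x n + (d : ℤ) ^ n * r ((T d m r)^[n] x % (d : ℤ))|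
          ≤ |(m : ℤ) * cc d m r x n| + |(d : ℤ) ^ n * r ((T d m r)^[n] x % (d : ℤ))| :=
            abs_add_le _ _
        _ = (m : ℤ) * |cc d m r x n| + (d : ℤ) ^ n * |r ((T d m r)^[n] x % (d : ℤ))| := by
            rw [abs_mul, abs_mul, abs_of_nonneg h3, abs_of_nonneg (Int.natCast_nonneg m)]
        _ ≤ (m : ℤ) * L ^ n + L ^ n * R0 d r := by gcongr
        _ ≤ L ^ n * L := by
            rw [hL]
            push_cast
            have : (0 : ℤ) ≤ ((m : ℤ) + d + R0 d r) ^ n := by positivity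
            nlinarith

end

/-- **Radicals of the terms.** Let `d ≥ 2` and `m ≥ 1` be coprime, `r` admissible and `ε > 0`. There
is `C` such that for every integer `x` and all `N ≥ 2` for which the first `N` terms of the
`T`-orbit of `x` are different, at most `C N / log N` of the `i < N` are such that `T^i (x)` is not
divisible by `d` and has radical at most `N ^ (1 - ε)`. -/
theorem result : ∀ d m : ℕ, 2 ≤ d → 1 ≤ m → Nat.Coprime m d → ∀ r : ℤ → ℤ,
    (∀ j : ℤ, 0 < j → j < (d : ℤ) → r j ≡ (m : ℤ) * j [ZMOD (d : ℤ)]) →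
    ∀ ε : ℝ, 0 < ε → ∃ C : ℝ, 0 < C ∧ ∀ (x : ℤ) (N : ℕ), 2 ≤ N →
      (∀ i < N, ∀ j < N, (T d m r)^[i] x = (T d m r)^[j] x → i = j) →
      (((range N).filter fun i => ¬ (d : ℤ) ∣ (T d m r)^[i] x ∧
        (radical ((T d m r)^[i] x) : ℝ) ≤ (N : ℝ) ^ (1 - ε)).card : ℝ) ≤ C * (N / Real.log N) := by
  classical
  intro d m hd hm hmd r hr ε hε
  obtain ⟨C, hC, hmain⟩ := Pool.Agent.X61.RT.rare (min ε (1 / 2)) (by positivity)
    (lt_of_le_of_lt (min_le_right _ _) (by norm_num)) (m + d + R0 d r) (by omega)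
  refine ⟨C, hC, ?_⟩
  intro x N hN hinj
  have hN1 : (1 : ℝ) ≤ N := by exact_mod_cast (by omega : 1 ≤ N)
  have hit : ∀ i j : ℕ, (fun i : ℕ => i + 1)^[j] i = i + j := by
    intro i j
    induction j with
    | zero => rfl
    | succ j ih => rw [Function.iterate_succ_apply', ih]; rfl
  refine hmain (fun i : ℕ => i + 1) (fun i => (T d m r)^[i] x) Set.univ 1 N _
    (Set.mapsTo_univ _ _) (fun i _ j _ h => by simpa using h) one_ne_zero hN
    (fun _ _ => Set.mem_univ _) ?_ ?_ ?_ ?_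
  · intro i hi
    obtain ⟨h1, h2, h3⟩ := Finset.mem_filter.1 hi
    refine ⟨fun h => h2 (by rw [h]; exact dvd_zero _), ?_⟩
    have e1 : (Pool.Agent.X61.RT.rad 1 : ℝ) = 1 := by simp [Pool.Agent.X61.RT.rad]
    rw [e1, one_mul]
    refine le_trans (b := (N : ℝ) ^ (1 - ε)) h3 ?_
    exact Real.rpow_le_rpow_of_exponent_le hN1 (by linarith [min_le_left ε (1 / 2)])
  · intro i hi j hj h
    exact hinj i (Finset.mem_range.1 (Finset.mem_filter.1 hi).1) j
      (Finset.mem_range.1 (Finset.mem_filter.1 hj).1) h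
  · intro i hi j hj1 hj2
    obtain ⟨-, h2, -⟩ := Finset.mem_filter.1 hi
    have hd1 : (1 : ℤ) ≤ d := by exact_mod_cast (by omega : 1 ≤ d)
    have hm1 : (1 : ℤ) ≤ m := by exact_mod_cast hm
    have hLm : (m : ℤ) ≤ ((m + d + R0 d r : ℕ) : ℤ) := by exact_mod_cast (by omega)
    have hLd : (d : ℤ) ≤ ((m + d + R0 d r : ℕ) : ℤ) := by exact_mod_cast (by omega)
    have hmu : ∀ n, mu d m r ((T d m r)^[i] x) n ≤ n := by
      intro n
      induction n with
      | zero => exact le_rfl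
      | succ n ih =>
        rw [mu]
        split_ifs <;> omega
    refine ⟨(m : ℤ) ^ mu d m r ((T d m r)^[i] x) j, - cc d m r ((T d m r)^[i] x) j, (d : ℤ) ^ j,
      by positivity, ?_, by positivity, ?_, ?_, ?_, ?_⟩
    · intro h
      rw [neg_eq_zero] at h
      obtain ⟨j', rfl⟩ : ∃ j', j = j' + 1 := ⟨j - 1, by omega⟩
      exact cc_ndvd hd hmd hr h2 j' (by rw [h]; exact dvd_zero _)
    · rw [abs_of_nonneg (by positivity)]
      calc (m : ℤ) ^ mu d m r ((T d m r)^[i] x) j ≤ (m : ℤ) ^ j :=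
            pow_le_pow_right₀ hm1 (hmu j)
        _ ≤ _ := pow_le_pow_left₀ (by positivity) hLm j
    · rw [abs_neg]
      exact cc_le hd _ j
    · rw [abs_of_nonneg (by positivity)]
      exact pow_le_pow_left₀ (by positivity) hLd j
    · rw [hit, add_comm i j, Function.iterate_add_apply, affine hd hr]
      ring
  · intro J
    refine ⟨range (N + J), by rw [card_range], ?_⟩
    intro i hi j hj
    rw [hit, Finset.mem_range]
    have := Finset.mem_range.1 (Finset.mem_filter.1 hi).1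
    omega

end Pool.Agent.Results.MP_fd8838_nt.RadicalsOfTerms
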